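import Pool.Agent.R482.ST.Mills

/-!
# Sets with `O (X (log X) ^ (-δ))` members of height at most `X` and powers: most exponents

For almost all `x > 1` all but `K M ^ (1 - κ)` of the `n ≤ M` are such that there is no member of height `H` with
`|H - x ^ (v n)| ≤ (v n) ^ κ`; here `v n ≥ n ^ c` and `κ > 0` depends on `c` and `δ` only.
-/

set_option autoImplicit false

open Filter Topology Finset MeasureTheory
open scoped ENNReal

namespace Pool.Agent.K1H20.TP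

open Pool.Agent.R482.ST

/-- the measure for one exponent (from the proof of `slow_pow`) -/
theorem slow_vol {T : Type} (S : Set T) (h : T → ℝ) {δ C : ℝ} (hδ : 0 < δ)
    (hS : ∀ X : ℝ, 1 ≤ X → {t | t ∈ S ∧ h t ≤ X}.Finite ∧
      ({t | t ∈ S ∧ h t ≤ X}.ncard : ℝ) ≤ C * X * (1 + Real.log X) ^ (-δ))
    {lo hi : ℝ} (hlo : 1 < lo) (hlh : lo ≤ hi) : ∃ A : ℝ, 0 ≤ A ∧ ∀ v L : ℝ, 1 ≤ v → 0 ≤ L → 2 ≤ lo ^ v →
      2 * L ≤ lo ^ v → volume (B S h (fun x => x ^ v) L lo hi) ≤ ENNReal.ofReal (A * (L * v ^ (-δ))) := by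
  have hlo0 : 0 < lo := by linarith
  have hhi0 : 0 < hi := by linarith
  have hll : 0 < Real.log lo := Real.log_pos hlo
  have hlog0 : 0 ≤ Real.log (hi / lo) := Real.log_nonneg (by rw [le_div_iff₀ hlo0]; linarith)
  refine ⟨16 * hi * (1 + Real.log (hi / lo)) * (|C| * (Real.log lo) ^ (-δ)), by positivity, ?_⟩
  intro v L hvn hL hn2 hn3
  have hvn0 : 0 < v := by linarith
  set D : ℝ := |C| * (1 + Real.log (lo ^ v / 2)) ^ (-δ) with hD
  have e0 : Real.log (lo ^ v / 2) = v * Real.log lo - Real.log 2 := by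
    rw [Real.log_div (by positivity) (by norm_num), Real.log_rpow hlo0]
  have e3 : v * Real.log lo ≤ 1 + Real.log (lo ^ v / 2) := by
    rw [e0]
    have := Real.log_two_lt_d9
    linarith
  have e4 : 0 < v * Real.log lo := by positivity
  have hD0 : 0 ≤ D := by
    have : 0 < 1 + Real.log (lo ^ v / 2) := lt_of_lt_of_le e4 e3
    positivity
  have hsub : B S h (fun x => x ^ v) L lo hi ⊆
      B {t | t ∈ S ∧ lo ^ v / 2 ≤ h t} h (fun x => x ^ v) L lo hi := by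
    rintro x ⟨hx1, hx2, t, ht, htx⟩
    refine ⟨hx1, hx2, t, ⟨ht, ?_⟩, htx⟩
    have htx : |h t - x ^ v| ≤ L := htx
    have e1 := (abs_le.mp htx).1
    have e2 : lo ^ v ≤ x ^ v := Real.rpow_le_rpow hlo0.le hx1 hvn0.le
    linarith
  refine (measure_mono hsub).trans ((vol_B_pow {t | t ∈ S ∧ lo ^ v / 2 ≤ h t} h (C := D) hvn
    hlo hlh hL hD0 (by linarith) ?_).trans ?_)
  · intro X hX
    have hs : {t | t ∈ {t | t ∈ S ∧ lo ^ v / 2 ≤ h t} ∧ h t ≤ X} ⊆ {t | t ∈ S ∧ h t ≤ X} := by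
      rintro t ⟨⟨h1, -⟩, h3⟩
      exact ⟨h1, h3⟩
    refine ⟨(hS X hX).1.subset hs, ?_⟩
    have hX0 : 0 < X := by linarith
    rcases lt_or_ge X (lo ^ v / 2) with hlt | hge
    · have he : {t | t ∈ {t | t ∈ S ∧ lo ^ v / 2 ≤ h t} ∧ h t ≤ X} = ∅ := by
        rw [Set.eq_empty_iff_forall_notMem]
        rintro t ⟨⟨-, h2⟩, h3⟩
        linarith
      rw [he, Set.ncard_empty, Nat.cast_zero]
      positivity
    · have hlX : Real.log (lo ^ v / 2) ≤ Real.log X := Real.log_le_log (by positivity) hge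
      have hpos : 0 < 1 + Real.log (lo ^ v / 2) := lt_of_lt_of_le e4 e3
      have e5 : (1 + Real.log X) ^ (-δ) ≤ (1 + Real.log (lo ^ v / 2)) ^ (-δ) :=
        Real.rpow_le_rpow_of_nonpos hpos (by linarith) (by linarith)
      have e6 : 0 ≤ (1 + Real.log X) ^ (-δ) := Real.rpow_nonneg (by linarith) _
      calc ({t | t ∈ {t | t ∈ S ∧ lo ^ v / 2 ≤ h t} ∧ h t ≤ X}.ncard : ℝ)
          ≤ ({t | t ∈ S ∧ h t ≤ X}.ncard : ℝ) := by exact_mod_cast Set.ncard_le_ncard hs (hS X hX).1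
        _ ≤ C * X * (1 + Real.log X) ^ (-δ) := (hS X hX).2
        _ ≤ |C| * X * (1 + Real.log X) ^ (-δ) :=
            mul_le_mul_of_nonneg_right (mul_le_mul_of_nonneg_right (le_abs_self C) hX0.le) e6
        _ ≤ |C| * X * (1 + Real.log (lo ^ v / 2)) ^ (-δ) := mul_le_mul_of_nonneg_left e5 (by positivity)
        _ = D * X := by rw [hD]; ring
  · apply ENNReal.ofReal_le_ofReal
    have e5 : D ≤ |C| * (v ^ (-δ) * (Real.log lo) ^ (-δ)) := by
      rw [hD, ← Real.mul_rpow hvn0.le hll.le]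
      apply mul_le_mul_of_nonneg_left _ (abs_nonneg C)
      exact Real.rpow_le_rpow_of_nonpos e4 e3 (by linarith)
    have e6 : 0 ≤ 16 * hi * (1 + Real.log (hi / lo)) := by positivity
    calc 16 * hi * (1 + Real.log (hi / lo)) * (D * L)
        ≤ 16 * hi * (1 + Real.log (hi / lo)) * ((|C| * (v ^ (-δ) * (Real.log lo) ^ (-δ))) * L) :=
          mul_le_mul_of_nonneg_left (mul_le_mul_of_nonneg_right e5 hL) e6
      _ = _ := by ring

/-- sets whose measures have a convergent weighted sum -/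
theorem weighted {E : ℕ → Set ℝ} {a : ℕ → ℝ} (ha : ∀ n, 0 ≤ a n) {u : ℕ → ℝ} (hu : Summable u)
    (hu0 : ∀ n, 0 ≤ u n) (hE : ∀ n, ENNReal.ofReal (a n) * volume (E n) ≤ ENNReal.ofReal (u n)) :
    ∃ N : Set ℝ, volume N = 0 ∧ ∀ x : ℝ, x ∉ N → ∃ W : ℝ, ∀ s : Finset ℕ, (∀ n ∈ s, x ∈ E n) →
      ∑ n ∈ s, a n ≤ W := by
  set G : ℕ → ℝ → ℝ≥0∞ := fun n => (toMeasurable volume (E n)).indicator fun _ => ENNReal.ofReal (a n) with hG
  have hGm : ∀ n, Measurable (G n) := fun n => measurable_const.indicator (measurableSet_toMeasurable _ _)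
  have hint : ∫⁻ x, ∑' n, G n x ≠ ∞ := by
    rw [lintegral_tsum fun n => (hGm n).aemeasurable]
    have h1 : ∀ n, ∫⁻ x, G n x ≤ ENNReal.ofReal (u n) := by
      intro n
      rw [hG]
      simp only
      rw [lintegral_indicator_const (measurableSet_toMeasurable _ _), measure_toMeasurable]
      exact hE n
    refine ne_top_of_le_ne_top ?_ (ENNReal.tsum_le_tsum h1)
    rw [← ENNReal.ofReal_tsum_of_nonneg hu0 hu]
    exact ENNReal.ofReal_ne_top
  have hae := ae_lt_top (Measurable.tsum hGm) hint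
  rw [ae_iff] at hae
  refine ⟨_, hae, fun x hx => ?_⟩
  rw [Set.mem_ofPred_eq, not_not] at hx
  refine ⟨(∑' n, G n x).toReal, fun s hs => ?_⟩
  have h2 : ENNReal.ofReal (∑ n ∈ s, a n) ≤ ∑' n, G n x := by
    rw [ENNReal.ofReal_sum_of_nonneg fun n _ => ha n]
    refine le_trans (Finset.sum_le_sum fun n hn => ?_) (ENNReal.sum_le_tsum s)
    rw [hG]
    simp only
    rw [Set.indicator_of_mem (subset_toMeasurable _ _ (hs n hn))]
  exact (ENNReal.ofReal_le_iff_le_toReal hx.ne).1 h2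

/-- one interval -/
theorem piece {T : Type} (S : Set T) (h : T → ℝ) {δ C : ℝ} (hδ : 0 < δ)
    (hS : ∀ X : ℝ, 1 ≤ X → {t | t ∈ S ∧ h t ≤ X}.Finite ∧
      ({t | t ∈ S ∧ h t ≤ X}.ncard : ℝ) ≤ C * X * (1 + Real.log X) ^ (-δ))
    {v : ℕ → ℝ} (hv : ∀ n, 1 ≤ v n) {c : ℝ} (hc : 0 < c) (hvc : ∀ n : ℕ, (n : ℝ) ^ c ≤ v n)
    {κ : ℝ} (hκ0 : 0 < κ) (hκ1 : κ ≤ 1) (hκ : κ * (1 + c) < c * δ) {lo hi : ℝ} (hlo : 1 < lo) (hlh : lo ≤ hi) :
    ∃ N : Set ℝ, volume N = 0 ∧ ∀ x : ℝ, lo ≤ x → x ≤ hi → x ∉ N → ∃ K : ℝ, ∀ M : ℕ, 1 ≤ M →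
      ∀ s : Finset ℕ, (∀ n ∈ s, n ≤ M ∧ ∃ t ∈ S, |h t - x ^ (v n)| ≤ (v n) ^ κ) →
        (s.card : ℝ) ≤ K * (M : ℝ) ^ (1 - κ) := by
  obtain ⟨A, hA, hvol⟩ := slow_vol S h hδ hS hlo hlh
  have hlo0 : 0 < lo := by linarith
  have hll : 0 < Real.log lo := Real.log_pos hlo
  have hinf : Tendsto v atTop atTop :=
    tendsto_atTop_mono hvc ((tendsto_rpow_atTop hc).comp tendsto_natCast_atTop_atTop)
  have h2 : ∀ᶠ n in atTop, 2 ≤ lo ^ (v n) := by
    have h1 : Tendsto (fun n => Real.log lo * v n) atTop atTop := hinf.const_mul_atTop hll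
    have h2 := (Real.tendsto_exp_atTop.comp h1).eventually (eventually_ge_atTop 2)
    filter_upwards [h2] with n hn
    rw [Real.rpow_def_of_pos hlo0]
    exact hn
  have h3 : ∀ᶠ n in atTop, 2 * (v n) ^ κ ≤ lo ^ (v n) := by
    have h3 := ((tendsto_exp_mul_div_rpow_atTop κ (Real.log lo) hll).comp hinf).eventually
      (eventually_ge_atTop 2)
    filter_upwards [h3] with n hn3
    have hvn : 0 < v n := by linarith [hv n]
    have hn3 : 2 ≤ Real.exp (Real.log lo * v n) / (v n) ^ κ := hn3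
    rwa [le_div_iff₀ (by positivity), ← Real.rpow_def_of_pos (by linarith)] at hn3
  obtain ⟨n1, hn1⟩ := eventually_atTop.1 (h2.and h3)
  set E : ℕ → Set ℝ := fun n => if n1 ≤ n ∧ 1 ≤ n then B S h (fun x => x ^ (v n)) ((v n) ^ κ) lo hi else ∅ with hE
  have hsum : Summable fun n : ℕ => A * (n : ℝ) ^ (κ - 1 + c * (κ - δ)) :=
    (Real.summable_nat_rpow.2 (by nlinarith)).mul_left A
  have hκδ : κ - δ < 0 := by
    by_contra hcon
    have : 0 ≤ c * (κ - δ) := mul_nonneg hc.le (by linarith)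
    nlinarith
  obtain ⟨N, hN, hw⟩ := weighted (E := E) (a := fun n : ℕ => (n : ℝ) ^ (κ - 1)) (fun n => by positivity) hsum
    (fun n => by positivity) (by
      intro n
      rw [hE]
      simp only
      split_ifs with hn
      · obtain ⟨g1, g2⟩ := hn1 n hn.1
        have hvn : 0 < v n := by linarith [hv n]
        have hn0 : (0 : ℝ) < n := by exact_mod_cast hn.2
        refine (mul_le_mul_right (hvol (v n) ((v n) ^ κ) (hv n) (by positivity) g1 g2) _).trans ?_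
        rw [← ENNReal.ofReal_mul (by positivity)]
        apply ENNReal.ofReal_le_ofReal
        have e1 : (v n) ^ κ * (v n) ^ (-δ) = (v n) ^ (κ - δ) := by
          rw [← Real.rpow_add hvn]
          congr 1
        have e2 : (v n) ^ (κ - δ) ≤ (n : ℝ) ^ (c * (κ - δ)) := by
          rw [Real.rpow_mul hn0.le]
          exact Real.rpow_le_rpow_of_nonpos (by positivity) (hvc n) hκδ.le
        rw [e1, Real.rpow_add hn0]
        calc (n : ℝ) ^ (κ - 1) * (A * (v n) ^ (κ - δ)) ≤ (n : ℝ) ^ (κ - 1) * (A * (n : ℝ) ^ (c * (κ - δ))) := by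
              gcongr
          _ = _ := by ring
      · simp)
  refine ⟨N, hN, fun x hx1 hx2 hxN => ?_⟩
  obtain ⟨W, hW⟩ := hw x hxN
  refine ⟨|W| + (n1 + 1), fun M hM s hs => ?_⟩
  classical
  have hM0 : (0 : ℝ) < M := by exact_mod_cast hM
  have hM1 : (1 : ℝ) ≤ M := by exact_mod_cast hM
  set s1 := s.filter (fun n => n1 ≤ n ∧ 1 ≤ n) with hs1
  set s2 := s.filter (fun n => ¬ (n1 ≤ n ∧ 1 ≤ n)) with hs2
  have hcard : s.card = s1.card + s2.card := (Finset.card_filter_add_card_filter_not _).symm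
  have hc2 : (s2.card : ℝ) ≤ n1 + 1 := by
    have : s2 ⊆ range (n1 + 1) := by
      intro n hn
      rw [hs2, mem_filter] at hn
      rw [mem_range]
      by_contra hcon
      exact hn.2 ⟨by omega, by omega⟩
    have h4 := Finset.card_le_card this
    rw [card_range] at h4
    exact_mod_cast h4
  have hc1 : (s1.card : ℝ) * (M : ℝ) ^ (κ - 1) ≤ |W| := by
    have h4 := hW s1 (by
      intro n hn
      rw [hs1, mem_filter] at hn
      rw [hE]
      simp only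
      rw [if_pos hn.2]
      exact ⟨hx1, hx2, (hs n hn.1).2⟩)
    refine le_trans ?_ (h4.trans (le_abs_self W))
    rw [← nsmul_eq_mul, ← Finset.sum_const]
    refine Finset.sum_le_sum fun n hn => ?_
    rw [hs1, mem_filter] at hn
    have hn0 : (0 : ℝ) < n := by exact_mod_cast hn.2.2
    exact Real.rpow_le_rpow_of_nonpos hn0 (by exact_mod_cast (hs n hn.1).1) (by linarith)
  have e1 : (M : ℝ) ^ (κ - 1) * (M : ℝ) ^ (1 - κ) = 1 := by
    rw [← Real.rpow_add hM0]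
    simp
  have hp : 0 < (M : ℝ) ^ (1 - κ) := by positivity
  have hp1 : 1 ≤ (M : ℝ) ^ (1 - κ) := Real.one_le_rpow hM1 (by linarith)
  have h5 : (s1.card : ℝ) ≤ |W| * (M : ℝ) ^ (1 - κ) := by
    calc (s1.card : ℝ) = (s1.card : ℝ) * (M : ℝ) ^ (κ - 1) * (M : ℝ) ^ (1 - κ) := by
          rw [mul_assoc, e1, mul_one]
      _ ≤ |W| * (M : ℝ) ^ (1 - κ) := mul_le_mul_of_nonneg_right hc1 hp.le
  have h6 : (n1 + 1 : ℝ) ≤ (n1 + 1 : ℝ) * (M : ℝ) ^ (1 - κ) := le_mul_of_one_le_right (by positivity) hp1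
  rw [hcard]
  push_cast
  linarith

/-- **Most exponents.** -/
theorem core {T : Type} (S : Set T) (h : T → ℝ) {δ C : ℝ} (hδ : 0 < δ)
    (hS : ∀ X : ℝ, 1 ≤ X → {t | t ∈ S ∧ h t ≤ X}.Finite ∧
      ({t | t ∈ S ∧ h t ≤ X}.ncard : ℝ) ≤ C * X * (1 + Real.log X) ^ (-δ))
    {v : ℕ → ℝ} (hv : ∀ n, 1 ≤ v n) {c : ℝ} (hc : 0 < c) (hvc : ∀ n : ℕ, (n : ℝ) ^ c ≤ v n)
    {κ : ℝ} (hκ0 : 0 < κ) (hκ1 : κ ≤ 1) (hκ : κ * (1 + c) < c * δ) :
    ∃ N : Set ℝ, volume N = 0 ∧ ∀ x : ℝ, 1 < x → x ∉ N → ∃ K : ℝ, ∀ M : ℕ, 1 ≤ M →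
      ∀ s : Finset ℕ, (∀ n ∈ s, n ≤ M ∧ ∃ t ∈ S, |h t - x ^ (v n)| ≤ (v n) ^ κ) →
        (s.card : ℝ) ≤ K * (M : ℝ) ^ (1 - κ) := by
  have hone : ∀ j : ℕ, ∃ N : Set ℝ, volume N = 0 ∧ ∀ x : ℝ, 1 + 1 / ((j : ℝ) + 1) ≤ x → x ≤ 2 + j → x ∉ N →
      ∃ K : ℝ, ∀ M : ℕ, 1 ≤ M →
      ∀ s : Finset ℕ, (∀ n ∈ s, n ≤ M ∧ ∃ t ∈ S, |h t - x ^ (v n)| ≤ (v n) ^ κ) →
        (s.card : ℝ) ≤ K * (M : ℝ) ^ (1 - κ) := by
    intro j
    have hj : (0 : ℝ) ≤ j := Nat.cast_nonneg j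
    have h1 : (0 : ℝ) < 1 / ((j : ℝ) + 1) := by positivity
    have h2 : 1 / ((j : ℝ) + 1) ≤ 1 := by
      rw [div_le_one (by positivity)]
      linarith
    exact piece S h hδ hS hv hc hvc hκ0 hκ1 hκ (by linarith) (by linarith)
  choose N hN hN2 using hone
  refine ⟨⋃ j, N j, measure_iUnion_null hN, fun x hx hxN => ?_⟩
  obtain ⟨j, hj⟩ := exists_nat_ge (max (1 / (x - 1)) (x - 1))
  have hj1 := (le_max_left _ _).trans hj
  have hj2 := (le_max_right _ _).trans hj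
  have hxa : 0 < x - 1 := by linarith
  have hj0 : (0 : ℝ) ≤ j := Nat.cast_nonneg j
  rw [Set.mem_iUnion] at hxN
  push Not at hxN
  refine hN2 j x ?_ (by linarith) (hxN j)
  have e1 : 1 / ((j : ℝ) + 1) ≤ x - 1 := by
    rw [div_le_iff₀ (by positivity)]
    rw [div_le_iff₀ hxa] at hj1
    nlinarith
  linarith

end Pool.Agent.K1H20.TP
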